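import Pool.Agent.Run7.h820.SR.Stm

/-!
# Project SR, piece FIX: the fixed point `A`
-/

set_option autoImplicit false
open Complex Filter Topology Set Metric MeasureTheory

namespace Run7.h321.SR

open Run7.h820.SR

lemma exp_eighth : Real.exp (1 / 8) ≤ 3 / 2 := by
  have h := Real.add_one_le_exp (-(1 / 8 : ℝ))
  have h2 : Real.exp (1 / 8) * Real.exp (-(1 / 8)) = 1 := by
    rw [← Real.exp_add]
    norm_num
  nlinarith [Real.exp_pos (1 / 8 : ℝ)]

lemma exp_lip (x y : ℂ) (hx : ‖x‖ ≤ 1 / 8) (hy : ‖y‖ ≤ 1 / 8) :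
    ‖Complex.exp x - Complex.exp y‖ ≤ 3 * ‖x - y‖ := by
  have h1 : Complex.exp x - Complex.exp y = Complex.exp y * (Complex.exp (x - y) - 1) := by
    rw [mul_sub, ← Complex.exp_add, mul_one]
    congr 2
    ring
  have h2 : ‖x - y‖ ≤ 1 := by
    calc ‖x - y‖ ≤ ‖x‖ + ‖y‖ := norm_sub_le _ _
      _ ≤ 1 := by linarith
  rw [h1, norm_mul]
  have h3 : ‖Complex.exp y‖ ≤ 3 / 2 := by
    rw [Complex.norm_exp]
    refine le_trans (Real.exp_le_exp.mpr ?_) exp_eighth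
    exact (Complex.re_le_norm y).trans hy
  have h4 := Complex.norm_exp_sub_one_le h2
  calc ‖Complex.exp y‖ * ‖Complex.exp (x - y) - 1‖ ≤ (3 / 2) * (2 * ‖x - y‖) := by
        gcongr
    _ = 3 * ‖x - y‖ := by ring

/-- the iteration -/
noncomputable def Ak (γ : ℂ → ℂ) (N : ℕ) : ℕ → ℂ → ℂ
  | 0 => fun _ => 0
  | k + 1 => fun v => Ak γ N k (v ^ N) / N - γ (v * Complex.exp (Ak γ N k (v ^ N) / N))

section

variable {κ B : ℝ} {γ ℓ : ℂ → ℂ} {N : ℕ}

lemma N_ge (h : Blk κ B γ ℓ) (hN : 16 * B ^ 2 / κ ≤ N) : (16 : ℝ) * B ≤ κ * N ∧ (16 : ℝ) ≤ N ∧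
    16 * B ^ 2 ≤ κ * N := by
  have h1 : 16 * B ^ 2 ≤ κ * N := by
    rw [div_le_iff₀ h.κ0] at hN
    linarith
  have h2 : 16 * B ≤ κ * N := by nlinarith [h.B1]
  refine ⟨h2, ?_, h1⟩
  have h3 : κ * (N:ℝ) ≤ 1 * N := mul_le_mul_of_nonneg_right h.κ1 (Nat.cast_nonneg _)
  nlinarith [h.B1]

lemma pow_mem (hN : (16:ℝ) ≤ N) {v : ℂ} (hv : v ∈ ball (0:ℂ) 1) : v ^ N ∈ ball (0:ℂ) 1 := by
  rw [mem_ball_zero_iff] at hv ⊢
  rw [norm_pow]
  have : N ≠ 0 := by
    rintro rfl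
    norm_num at hN
  exact pow_lt_one₀ (norm_nonneg _) hv this

/-- the argument of `γ` -/
lemma arg_small (h : Blk κ B γ ℓ) (hN : 16 * B ^ 2 / κ ≤ N) {x v : ℂ} (hv : v ∈ ball (0:ℂ) 1)
    (hx : ‖x‖ ≤ 2 * B) : ‖x / N‖ ≤ κ / 8 ∧ ‖x / N‖ ≤ 1 / 8 ∧ ‖v * Complex.exp (x / N)‖ ≤ Real.exp (κ / 8) := by
  obtain ⟨h1, h2, -⟩ := N_ge h hN
  have hN0 : (0:ℝ) < N := by linarith
  have h3 : ‖x / N‖ ≤ κ / 8 := by
    rw [norm_div, Complex.norm_natCast, div_le_iff₀ hN0]
    linarith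
  refine ⟨h3, h3.trans (by linarith [h.κ1]), ?_⟩
  rw [norm_mul, Complex.norm_exp]
  rw [mem_ball_zero_iff] at hv
  calc ‖v‖ * Real.exp (x / N).re ≤ 1 * Real.exp (κ / 8) := by
        refine mul_le_mul hv.le (Real.exp_le_exp.mpr ?_) (Real.exp_pos _).le zero_le_one
        exact (Complex.re_le_norm _).trans h3
    _ = Real.exp (κ / 8) := one_mul _

lemma Ak_prop (h : Blk κ B γ ℓ) (hN : 16 * B ^ 2 / κ ≤ N) (k : ℕ) :
    DifferentiableOn ℂ (Ak γ N k) (ball 0 1) ∧ Ak γ N k 0 = 0 ∧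
      ∀ v ∈ ball (0:ℂ) 1, ‖Ak γ N k v‖ ≤ 2 * B := by
  obtain ⟨h1, h2, -⟩ := N_ge h hN
  have hN0 : (0:ℝ) < N := by linarith
  have hNz : N ≠ 0 := by
    rintro rfl
    norm_num at hN0
  have hκ := h.κ0
  induction k with
  | zero =>
    refine ⟨differentiableOn_const _, rfl, fun v _ => ?_⟩
    show ‖(0:ℂ)‖ ≤ 2 * B
    rw [norm_zero]
    linarith [h.B1]
  | succ k ih =>
    obtain ⟨i1, i2, i3⟩ := ih
    refine ⟨?_, ?_, ?_⟩
    · have hc : DifferentiableOn ℂ (fun v : ℂ => Ak γ N k (v ^ N) / N) (ball 0 1) := by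
        refine DifferentiableOn.div_const ?_ _
        refine i1.comp (differentiable_pow N).differentiableOn ?_
        intro v hv
        exact pow_mem h2 hv
      have hg : DifferentiableOn ℂ (fun v : ℂ => v * Complex.exp (Ak γ N k (v ^ N) / N)) (ball 0 1) :=
        differentiableOn_id.mul hc.cexp
      refine hc.sub (h.dγ.comp hg ?_)
      intro v hv
      rw [mem_ball_zero_iff]
      refine lt_of_le_of_lt (arg_small h hN hv (i3 _ (pow_mem h2 hv))).2.2 ?_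
      exact Real.exp_lt_exp.mpr (by linarith)
    · show Ak γ N k ((0:ℂ) ^ N) / N - γ (0 * Complex.exp (Ak γ N k ((0:ℂ) ^ N) / N)) = 0
      rw [zero_pow hNz, i2, zero_mul, h.γ0]
      simp
    · intro v hv
      obtain ⟨a1, a2, a3⟩ := arg_small h hN hv (i3 _ (pow_mem h2 hv))
      show ‖Ak γ N k (v ^ N) / N - γ (v * Complex.exp (Ak γ N k (v ^ N) / N))‖ ≤ 2 * B
      have a4 : ‖γ (v * Complex.exp (Ak γ N k (v ^ N) / N))‖ ≤ B :=
        h.bγ _ (a3.trans (Real.exp_le_exp.mpr (by linarith)))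
      refine (norm_sub_le _ _).trans ?_
      linarith [h.B1]

lemma Ak_diff (hL : S_LIP) (h : Blk κ B γ ℓ) (hN : 16 * B ^ 2 / κ ≤ N) (k : ℕ) :
    ∀ v ∈ ball (0:ℂ) 1, ‖Ak γ N (k + 1) v - Ak γ N k v‖ ≤ 2 * B * (1 / 2) ^ k := by
  obtain ⟨h1, h2, h2'⟩ := N_ge h hN
  have hN0 : (0:ℝ) < N := by linarith
  have hκ := h.κ0
  have hB := h.B1
  induction k with
  | zero =>
    intro v hv
    have := (Ak_prop h hN 1).2.2 v hv
    rw [pow_zero, mul_one]
    have h0 : Ak γ N 0 v = 0 := rfl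
    rw [h0, sub_zero]
    exact this
  | succ k ih =>
    intro v hv
    have hv' := pow_mem h2 hv
    obtain ⟨a1, a2, a3⟩ := arg_small h hN hv ((Ak_prop h hN k).2.2 _ hv')
    obtain ⟨b1, b2, b3⟩ := arg_small h hN hv ((Ak_prop h hN (k + 1)).2.2 _ hv')
    have hd := ih _ hv'
    set x := Ak γ N k (v ^ N) / N with hx
    set y := Ak γ N (k + 1) (v ^ N) / N with hy
    have hxy : ‖y - x‖ ≤ 2 * B * (1 / 2) ^ k / N := by
      rw [hx, hy, ← sub_div, norm_div, Complex.norm_natCast]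
      gcongr
    have e1 : Ak γ N (k + 1 + 1) v - Ak γ N (k + 1) v =
        (y - x) - (γ (v * Complex.exp y) - γ (v * Complex.exp x)) := by
      show (y - γ (v * Complex.exp y)) - (x - γ (v * Complex.exp x)) = _
      ring
    have e2 := hL κ B γ h.κ0 (by linarith) h.dγ h.bγ (v * Complex.exp y) (v * Complex.exp x)
      (b3.trans (Real.exp_le_exp.mpr (by linarith))) (a3.trans (Real.exp_le_exp.mpr (by linarith)))
    have e3 : ‖v * Complex.exp y - v * Complex.exp x‖ ≤ 3 * ‖y - x‖ := by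
      rw [← mul_sub, norm_mul]
      rw [mem_ball_zero_iff] at hv
      calc ‖v‖ * ‖Complex.exp y - Complex.exp x‖ ≤ 1 * (3 * ‖y - x‖) := by
            refine mul_le_mul hv.le (exp_lip y x b2 a2) (norm_nonneg _) zero_le_one
        _ = 3 * ‖y - x‖ := one_mul _
    rw [e1]
    have hc : 1 + 2 * B / κ * 3 ≤ (1 / 2) * (N:ℝ) := by
      have : 2 * B / κ * 3 ≤ 3 / 8 * N := by
        rw [div_mul_eq_mul_div, div_le_iff₀ hκ]
        nlinarith
      linarith
    calc ‖(y - x) - (γ (v * Complex.exp y) - γ (v * Complex.exp x))‖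
        ≤ ‖y - x‖ + ‖γ (v * Complex.exp y) - γ (v * Complex.exp x)‖ := norm_sub_le _ _
      _ ≤ ‖y - x‖ + 2 * B / κ * (3 * ‖y - x‖) := by
          have : 0 ≤ 2 * B / κ := by positivity
          have := mul_le_mul_of_nonneg_left e3 this
          linarith
      _ = (1 + 2 * B / κ * 3) * ‖y - x‖ := by ring
      _ ≤ ((1 / 2) * (N:ℝ)) * (2 * B * (1 / 2) ^ k / N) := by
          gcongr
      _ = 2 * B * (1 / 2) ^ (k + 1) := by
          rw [pow_succ]
          field_simp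

end

theorem t_FIX (hL : S_LIP) : S_FIX := by
  intro κ B γ ℓ N h hN
  obtain ⟨h1, h2, h2'⟩ := N_ge h hN
  have hN0 : (0:ℝ) < N := by linarith
  have hκ := h.κ0
  have hB := h.B1
  -- pointwise limits
  have hdist : ∀ v ∈ ball (0:ℂ) 1, ∀ k : ℕ,
      dist (Ak γ N k v) (Ak γ N (k + 1) v) ≤ 2 * B * (1 / 2) ^ k := by
    intro v hv k
    rw [dist_comm, dist_eq_norm]
    exact Ak_diff hL h hN k v hv
  have hlim : ∀ v ∈ ball (0:ℂ) 1, ∃ a : ℂ, Tendsto (fun k => Ak γ N k v) atTop (𝓝 a) := by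
    intro v hv
    exact cauchySeq_tendsto_of_complete
      (cauchySeq_of_le_geometric (1 / 2) (2 * B) (by norm_num) (hdist v hv))
  classical
  let A : ℂ → ℂ := fun v => if hv : v ∈ ball (0:ℂ) 1 then (hlim v hv).choose else 0
  have hA : ∀ v ∈ ball (0:ℂ) 1, Tendsto (fun k => Ak γ N k v) atTop (𝓝 (A v)) := by
    intro v hv
    have : A v = (hlim v hv).choose := dif_pos hv
    rw [this]
    exact (hlim v hv).choose_spec
  have hunif : TendstoUniformlyOn (fun k => Ak γ N k) A atTop (ball 0 1) := by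
    rw [Metric.tendstoUniformlyOn_iff]
    intro ε hε
    have hz : Tendsto (fun k : ℕ => 2 * B * (1 / 2 : ℝ) ^ k / (1 - 1 / 2)) atTop (𝓝 0) := by
      have := (tendsto_pow_atTop_nhds_zero_of_lt_one (r := (1 / 2 : ℝ)) (by norm_num) (by norm_num)).const_mul
        (2 * B)
      have := this.div_const (1 - 1 / 2)
      simpa using this
    filter_upwards [hz.eventually_lt_const hε] with k hk v hv
    rw [dist_comm]
    exact lt_of_le_of_lt
      (dist_le_of_le_geometric_of_tendsto (1 / 2) (2 * B) (by norm_num) (hdist v hv) (hA v hv) k) hk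
  have hdiff : DifferentiableOn ℂ A (ball 0 1) := by
    refine hunif.tendstoLocallyUniformlyOn.differentiableOn (Eventually.of_forall (fun k => ?_)) isOpen_ball
    exact (Ak_prop h hN k).1
  have hbd : ∀ v ∈ ball (0:ℂ) 1, ‖A v‖ ≤ 2 * B := by
    intro v hv
    exact le_of_tendsto (hA v hv).norm (Eventually.of_forall (fun k => (Ak_prop h hN k).2.2 v hv))
  refine ⟨A, hdiff, ?_, hbd, ?_⟩
  · have h0 : (0:ℂ) ∈ ball (0:ℂ) 1 := mem_ball_self one_pos
    refine tendsto_nhds_unique (hA 0 h0) ?_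
    have : (fun k => Ak γ N k 0) = fun _ => (0:ℂ) := by
      funext k
      exact (Ak_prop h hN k).2.1
    rw [this]
    exact tendsto_const_nhds
  · intro v hv
    have hv' := pow_mem h2 hv
    have l1 : Tendsto (fun k => Ak γ N (k + 1) v) atTop (𝓝 (A v)) :=
      (hA v hv).comp (tendsto_add_atTop_nat 1)
    have l2 : Tendsto (fun k => Ak γ N k (v ^ N) / (N:ℂ)) atTop (𝓝 (A (v ^ N) / N)) :=
      (hA _ hv').div_const _
    have l3 : Tendsto (fun k => v * Complex.exp (Ak γ N k (v ^ N) / N)) atTop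
        (𝓝 (v * Complex.exp (A (v ^ N) / N))) :=
      ((Complex.continuous_exp.tendsto _).comp l2).const_mul v
    have hin : v * Complex.exp (A (v ^ N) / N) ∈ ball (0:ℂ) (Real.exp (2 * κ)) := by
      rw [mem_ball_zero_iff]
      refine lt_of_le_of_lt (arg_small h hN hv (hbd _ hv')).2.2 ?_
      exact Real.exp_lt_exp.mpr (by linarith)
    have hγc : ContinuousAt γ (v * Complex.exp (A (v ^ N) / N)) :=
      (h.dγ.differentiableAt (isOpen_ball.mem_nhds hin)).continuousAt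
    have l4 : Tendsto (fun k => Ak γ N k (v ^ N) / (N:ℂ) - γ (v * Complex.exp (Ak γ N k (v ^ N) / N))) atTop
        (𝓝 (A (v ^ N) / N - γ (v * Complex.exp (A (v ^ N) / N)))) :=
      l2.sub (hγc.tendsto.comp l3)
    exact tendsto_nhds_unique l1 l4

end Run7.h321.SR
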