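import Pool.Agent.Run7.h820.SR.Stm

/-!
# Project SR, piece NI: near independence of `g(θ), g(Nθ), g(N²θ), ...`
-/

set_option autoImplicit false
open Complex Filter Topology Set Metric MeasureTheory

namespace Run7.h321.SR

open Run7.h820.SR

/-- exchange of two interval integrals of a continuous function -/
lemma swap (F : ℝ → ℝ → ℝ) (hF : Continuous (Function.uncurry F)) (P T : ℝ) (hP : 0 ≤ P)
    (hT : 0 ≤ T) : ∫ a in (0:ℝ)..T, ∫ θ in (0:ℝ)..P, F a θ = ∫ θ in (0:ℝ)..P, ∫ a in (0:ℝ)..T, F a θ := by
  simp only [intervalIntegral.integral_of_le hP, intervalIntegral.integral_of_le hT]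
  refine MeasureTheory.integral_integral_swap ?_
  rw [Measure.prod_restrict]
  have h : IntegrableOn (Function.uncurry F) (Icc 0 T ×ˢ Icc 0 P) (volume.prod volume) :=
    hF.continuousOn.integrableOn_compact (isCompact_Icc.prod isCompact_Icc)
  exact h.mono_set (Set.prod_mono Ioc_subset_Icc_self Ioc_subset_Icc_self)

lemma geom_bound (Λ δ : ℝ) (N : ℕ) (hN : 2 ≤ N) (hΛ : 0 ≤ Λ)
    (h : 2 * Real.pi * Λ ≤ δ * ((N:ℝ) - 1)) (n : ℕ) (a : ℝ) (ha0 : 0 ≤ a)
    (ha : a * (N:ℝ) ^ n ≤ 2 * Real.pi) :
    ∑ j ∈ Finset.range n, Λ * ((N:ℝ) ^ j * a) ≤ δ := by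
  have hN1 : (0:ℝ) < (N:ℝ) - 1 := by
    have : (2:ℝ) ≤ (N:ℝ) := by exact_mod_cast hN
    linarith
  have hg : (∑ j ∈ Finset.range n, (N:ℝ) ^ j) * ((N:ℝ) - 1) = (N:ℝ) ^ n - 1 := geom_sum_mul _ _
  have h1 : (∑ j ∈ Finset.range n, Λ * ((N:ℝ) ^ j * a)) * ((N:ℝ) - 1) ≤ δ * ((N:ℝ) - 1) := by
    calc (∑ j ∈ Finset.range n, Λ * ((N:ℝ) ^ j * a)) * ((N:ℝ) - 1)
        = Λ * a * ((∑ j ∈ Finset.range n, (N:ℝ) ^ j) * ((N:ℝ) - 1)) := by
          rw [Finset.sum_mul, Finset.sum_mul, Finset.mul_sum]
          refine Finset.sum_congr rfl (fun j _ => ?_)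
          ring
      _ = Λ * (a * (N:ℝ) ^ n - a) := by rw [hg]; ring
      _ ≤ Λ * (2 * Real.pi) := by
          refine mul_le_mul_of_nonneg_left ?_ hΛ
          linarith
      _ = 2 * Real.pi * Λ := by ring
      _ ≤ δ * ((N:ℝ) - 1) := h
  exact le_of_mul_le_mul_right h1 hN1

theorem t_NI : S_NI := by
  intro g Λ δ N hg hper hN hΛ hδ n
  have hgc : Continuous g := by
    have : LipschitzWith (Real.toNNReal Λ) g := by
      refine LipschitzWith.of_dist_le_mul (fun x y => ?_)
      rw [Real.dist_eq, Real.dist_eq, Real.coe_toNNReal _ hΛ]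
      exact hg x y
    exact this.continuous
  have hpi : (0:ℝ) < 2 * Real.pi := by positivity
  have hN0 : (0:ℝ) < (N:ℝ) := by
    have : 0 < N := by omega
    exact_mod_cast this
  set I : ℝ := ∫ θ in (0:ℝ)..(2 * Real.pi), Real.exp (g θ) with hI
  have hI0 : 0 ≤ I := by
    refine intervalIntegral.integral_nonneg hpi.le (fun θ _ => (Real.exp_pos _).le)
  -- periodicity of the sum
  have hSper : ∀ n : ℕ, Function.Periodic (fun θ => ∑ j ∈ Finset.range n, g ((N:ℝ) ^ j * θ))
      (2 * Real.pi) := by
    intro n θ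
    refine Finset.sum_congr rfl (fun j _ => ?_)
    have h2 : (N:ℝ) ^ j * (θ + 2 * Real.pi) = (N:ℝ) ^ j * θ + ((N ^ j : ℕ) : ℝ) * (2 * Real.pi) := by
      push_cast
      ring
    rw [h2]
    exact (hper.nat_mul (N ^ j)) _
  have hSc : ∀ n : ℕ, Continuous (fun θ : ℝ => ∑ j ∈ Finset.range n, g ((N:ℝ) ^ j * θ)) := by
    intro n
    refine continuous_finsetSum _ (fun j _ => ?_)
    exact hgc.comp (continuous_const.mul continuous_id)
  induction n with
  | zero =>
    simp only [pow_zero, Finset.range_zero, Finset.sum_empty, Real.exp_zero]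
    rw [intervalIntegral.integral_const]
    simp only [sub_zero, smul_eq_mul, mul_one]
    rw [inv_mul_cancel₀ hpi.ne']
  | succ n ih =>
    set S : ℝ → ℝ := fun θ => ∑ j ∈ Finset.range n, g ((N:ℝ) ^ j * θ) with hS
    set M : ℝ := (N:ℝ) ^ n with hM
    have hM0 : 0 < M := by positivity
    have hScn : Continuous S := hSc n
    have hSpn : Function.Periodic S (2 * Real.pi) := hSper n
    have hGper : Function.Periodic (fun θ => g (M * θ)) (2 * Real.pi) := by
      intro θ
      have h2 : M * (θ + 2 * Real.pi) = M * θ + ((N ^ n : ℕ) : ℝ) * (2 * Real.pi) := by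
        rw [hM]
        push_cast
        ring
      show g (M * (θ + 2 * Real.pi)) = g (M * θ)
      rw [h2]
      exact (hper.nat_mul (N ^ n)) _
    -- the total integral
    set Q : ℝ := ∫ θ in (0:ℝ)..(2 * Real.pi), Real.exp (S θ + g (M * θ)) with hQ
    have hfull : ∫ θ in (0:ℝ)..(2 * Real.pi), Real.exp (∑ j ∈ Finset.range (n + 1), g ((N:ℝ) ^ j * θ)) = Q := by
      rw [hQ]
      refine intervalIntegral.integral_congr (fun θ _ => ?_)
      simp only [Finset.sum_range_succ]
      rfl
    have hper2 : Function.Periodic (fun θ => Real.exp (S θ + g (M * θ))) (2 * Real.pi) := by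
      intro θ
      have h1 := hSpn θ
      have h2 := hGper θ
      simp only at h1 h2
      show Real.exp (S (θ + 2 * Real.pi) + g (M * (θ + 2 * Real.pi))) = Real.exp (S θ + g (M * θ))
      rw [h1, h2]
    -- shift by a
    have hshift : ∀ a : ℝ, 0 ≤ a → a * M ≤ 2 * Real.pi →
        Real.exp (-δ) * (∫ θ in (0:ℝ)..(2 * Real.pi), Real.exp (S θ) * Real.exp (g (M * θ + M * a))) ≤ Q := by
      intro a ha0 ha
      have h1 : Q = ∫ θ in (0:ℝ)..(2 * Real.pi), Real.exp (S (θ + a) + g (M * (θ + a))) := by
        rw [intervalIntegral.integral_comp_add_right (fun θ => Real.exp (S θ + g (M * θ))) a]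
        rw [zero_add, add_comm (2 * Real.pi) a]
        rw [hQ]
        have := hper2.intervalIntegral_add_eq 0 a
        rw [zero_add] at this
        exact this
      rw [h1, ← intervalIntegral.integral_const_mul]
      refine intervalIntegral.integral_mono_on hpi.le ?_ ?_ ?_
      · refine Continuous.intervalIntegrable ?_ _ _
        fun_prop
      · refine Continuous.intervalIntegrable ?_ _ _
        fun_prop
      · intro θ _
        rw [← Real.exp_add, ← Real.exp_add]
        refine Real.exp_le_exp.mpr ?_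
        have h3 : S θ - S (θ + a) ≤ δ := by
          refine le_trans ?_ (geom_bound Λ δ N hN hΛ hδ n a ha0 ha)
          rw [hS]
          simp only
          rw [← Finset.sum_sub_distrib]
          refine Finset.sum_le_sum (fun j _ => ?_)
          refine (le_abs_self _).trans ((hg _ _).trans ?_)
          refine mul_le_mul_of_nonneg_left (le_of_eq ?_) hΛ
          rw [← mul_sub]
          have : θ - (θ + a) = -a := by ring
          rw [this, abs_mul, abs_neg, abs_of_nonneg ha0, abs_of_nonneg (by positivity)]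
        have h4 : M * (θ + a) = M * θ + M * a := by ring
        rw [h4]
        linarith
    -- average over a
    have hT : 0 ≤ 2 * Real.pi / M := by positivity
    have havg : Real.exp (-δ) * (∫ a in (0:ℝ)..(2 * Real.pi / M), ∫ θ in (0:ℝ)..(2 * Real.pi),
        Real.exp (S θ) * Real.exp (g (M * θ + M * a))) ≤ (2 * Real.pi / M) * Q := by
      have h1 : (2 * Real.pi / M) * Q = ∫ a in (0:ℝ)..(2 * Real.pi / M), Q := by
        rw [intervalIntegral.integral_const]
        simp
      rw [h1, ← intervalIntegral.integral_const_mul]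
      refine intervalIntegral.integral_mono_on hT ?_ ?_ ?_
      · refine Continuous.intervalIntegrable ?_ _ _
        refine continuous_const.mul ?_
        refine intervalIntegral.continuous_parametric_intervalIntegral_of_continuous' ?_ _ _
        fun_prop
      · exact Continuous.intervalIntegrable continuous_const _ _
      · intro a ha
        refine hshift a ha.1 ?_
        calc a * M ≤ (2 * Real.pi / M) * M := mul_le_mul_of_nonneg_right ha.2 hM0.le
          _ = 2 * Real.pi := by field_simp
    -- exchange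
    have hex : ∫ a in (0:ℝ)..(2 * Real.pi / M), ∫ θ in (0:ℝ)..(2 * Real.pi),
        Real.exp (S θ) * Real.exp (g (M * θ + M * a)) =
        (I / M) * ∫ θ in (0:ℝ)..(2 * Real.pi), Real.exp (S θ) := by
      rw [swap (fun a θ => Real.exp (S θ) * Real.exp (g (M * θ + M * a))) (by
        unfold Function.uncurry
        fun_prop) _ _ hpi.le hT]
      rw [← intervalIntegral.integral_const_mul]
      refine intervalIntegral.integral_congr (fun θ _ => ?_)
      rw [intervalIntegral.integral_const_mul]
      have h2 : ∫ a in (0:ℝ)..(2 * Real.pi / M), Real.exp (g (M * θ + M * a)) = I / M := by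
        have h3 := intervalIntegral.integral_comp_add_mul (fun u => Real.exp (g u)) hM0.ne' (M * θ)
          (a := 0) (b := 2 * Real.pi / M)
        rw [h3]
        have h4 : M * θ + M * (2 * Real.pi / M) = M * θ + 2 * Real.pi := by
          field_simp
        rw [h4, mul_zero, add_zero]
        have h5 : Function.Periodic (fun u => Real.exp (g u)) (2 * Real.pi) := by
          intro u
          simp only
          rw [hper u]
        rw [h5.intervalIntegral_add_eq (M * θ) 0, zero_add, smul_eq_mul, hI]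
        field_simp
      rw [h2]
      ring
    rw [hex] at havg
    -- conclusion
    have hfin : Real.exp (-δ) * (2 * Real.pi)⁻¹ * I * (∫ θ in (0:ℝ)..(2 * Real.pi), Real.exp (S θ)) ≤ Q := by
      have h6 : Real.exp (-δ) * (I / M * ∫ θ in (0:ℝ)..(2 * Real.pi), Real.exp (S θ)) =
          (2 * Real.pi / M) * (Real.exp (-δ) * (2 * Real.pi)⁻¹ * I *
            (∫ θ in (0:ℝ)..(2 * Real.pi), Real.exp (S θ))) := by
        field_simp
      rw [h6] at havg
      exact le_of_mul_le_mul_left havg (by positivity)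
    rw [hfull]
    calc (Real.exp (-δ) * ((2 * Real.pi)⁻¹ * I)) ^ (n + 1)
        = (Real.exp (-δ) * ((2 * Real.pi)⁻¹ * I)) ^ n * (Real.exp (-δ) * ((2 * Real.pi)⁻¹ * I)) := pow_succ _ _
      _ ≤ ((2 * Real.pi)⁻¹ * ∫ θ in (0:ℝ)..(2 * Real.pi), Real.exp (S θ)) *
          (Real.exp (-δ) * ((2 * Real.pi)⁻¹ * I)) := by
          refine mul_le_mul_of_nonneg_right ih ?_
          positivity
      _ = (2 * Real.pi)⁻¹ * (Real.exp (-δ) * (2 * Real.pi)⁻¹ * I * (∫ θ in (0:ℝ)..(2 * Real.pi), Real.exp (S θ))) := by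
          ring
      _ ≤ (2 * Real.pi)⁻¹ * Q := by
          refine mul_le_mul_of_nonneg_left hfin (by positivity)

end Run7.h321.SR
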